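import Pool.Agent.Lib.MP_c7af3c_ag.T2C.IfaceA
import Pool.Agent.Lib.MP_c7af3c_ag.T2.H79.Rk1T

/-!
# MP_c7af3c_ag, project T2C: row ATK

`atkinson_sym2`: spaces of linear maps of rank at most 2 into a space of dimension 3, with the
symmetry `φ_(lB) l' = φ_(l'B) l` and elements `A₀` with `φ_(A₀) = 0` which span the rest: the skew
type does not occur. Applied to `φ_A(l) = V(A l)` for tuples `A`, with `A₀` the tuples of partial
derivatives.
-/

set_option autoImplicit false

namespace Pool.Agent.T2C.H76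

open Module MvPolynomial Pool.Agent.Gen Pool.Agent.Sharp Pool.Agent.Edge
open Pool.Agent.T2 (Fk Rac lnf Sizes Sit)
open Pool.Agent.T2.H76 (Mx mem_Mx lin lin_apply lin_hom lin_single atkinson skew_extend symm_zero
  cr0 cr1 cr2 exists_vec)

section sym

variable {Ω M Q S : Type*} [Field Ω] [AddCommGroup M] [Module Ω M] [AddCommGroup Q] [Module Ω Q]
  [AddCommGroup S] [Module Ω S]

theorem atkinson_sym2 {ι κ : Type*} (h2 : (2 : Ω) ≠ 0) (hQ : finrank Ω Q = 3)
    (φ : S →ₗ[Ω] M →ₗ[Ω] Q) (Sk : AddSubgroup S) (hSk : Submodule.span Ω (Sk : Set S) = ⊤)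
    (hr : ∀ A ∈ Sk, ∀ m : Fin 3 → M, ¬ LinearIndependent Ω (fun i => φ A (m i)))
    (hs : Submodule.span Ω {q | ∃ A m, φ A m = q} = ⊤)
    (μ : ι → M →ₗ[Ω] S) (hsym : ∀ i l l', φ (μ i l) l' = φ (μ i l') l) (A₀ : κ → S)
    (hA₀ : ∀ i l, φ (A₀ i) l = 0)
    (hco : Submodule.span Ω (Set.range A₀ ∪ ⋃ i, Set.range (μ i)) = ⊤) :
    (∃ f g : M →ₗ[Ω] Ω, ∀ A m, f m = 0 → g m = 0 → φ A m = 0) ∨
    (∃ (f : M →ₗ[Ω] Ω) (q : Q), ∀ A m, f m = 0 → φ A m ∈ Submodule.span Ω {q}) := by
  have hs' : Submodule.span Ω {q | ∃ A m, (φ.toAddMonoidHom.comp Sk.subtype) A m = q} = ⊤ := by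
    rw [eq_top_iff, ← hs, Submodule.span_le]
    rintro _ ⟨A, m, rfl⟩
    have hA : A ∈ Submodule.span Ω (Sk : Set S) := by rw [hSk]; trivial
    induction hA using Submodule.span_induction with
    | mem A hA => exact Submodule.subset_span ⟨⟨A, hA⟩, m, rfl⟩
    | zero =>
      rw [map_zero]
      exact zero_mem _
    | add A B _ _ hA hB =>
      rw [map_add]
      exact Submodule.add_mem _ hA hB
    | smul c A _ hA =>
      rw [map_smul]
      exact Submodule.smul_mem _ _ hA
  rcases atkinson h2 hQ (φ.toAddMonoidHom.comp Sk.subtype) (fun A m => hr A A.2 m) hs' with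
    ⟨f, g, h⟩ | ⟨f, q, h⟩ | h
  · left
    refine ⟨f, g, fun A m hf hg => ?_⟩
    have hA : A ∈ Submodule.span Ω (Sk : Set S) := by rw [hSk]; trivial
    induction hA using Submodule.span_induction with
    | mem A hA => exact h ⟨A, hA⟩ m hf hg
    | zero => simp
    | add A B _ _ hA hB => rw [map_add, LinearMap.add_apply, hA, hB, add_zero]
    | smul c A _ hA => rw [map_smul, LinearMap.smul_apply, hA, smul_zero]
  · right
    refine ⟨f, q, fun A m hf => ?_⟩
    have hA : A ∈ Submodule.span Ω (Sk : Set S) := by rw [hSk]; trivial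
    induction hA using Submodule.span_induction with
    | mem A hA => exact h ⟨A, hA⟩ m hf
    | zero =>
      rw [map_zero]
      exact zero_mem _
    | add A B _ _ hA hB =>
      rw [map_add]
      exact Submodule.add_mem _ hA hB
    | smul c A _ hA =>
      rw [map_smul]
      exact Submodule.smul_mem _ _ hA
  · exfalso
    obtain ⟨b, n, a, hn, hφ⟩ := skew_extend hSk h
    have h' : ∀ A m i, b.repr (φ A m) i = crossProduct (a A) (n m) i := by
      intro A m i
      rw [hφ A m, map_sum, Fin.sum_univ_three]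
      simp only [map_smul, Basis.repr_self, Finsupp.add_apply, Finsupp.smul_apply,
        Finsupp.single_apply, smul_eq_mul]
      fin_cases i <;> simp
    have hz : ∀ i l, a (μ i l) = 0 := by
      intro i
      apply symm_zero h2 (a ∘ₗ μ i) n hn
      intro l l'
      ext j
      change crossProduct (a (μ i l)) (n l') j = crossProduct (a (μ i l')) (n l) j
      rw [← h', ← h', hsym]
    have hz0 : ∀ i, a (A₀ i) = 0 := by
      intro i
      have h1 : ∀ l j, crossProduct (a (A₀ i)) (n l) j = 0 := by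
        intro l j
        rw [← h', hA₀, map_zero]
        rfl
      obtain ⟨m0, h0⟩ := hn (Pi.single 0 1)
      obtain ⟨m1, h3⟩ := hn (Pi.single 1 1)
      have k1 := h1 m0 1
      have k2 := h1 m0 2
      have k3 := h1 m1 2
      rw [cr1, h0] at k1
      rw [cr2, h0] at k2
      rw [cr2, h3] at k3
      ext j
      fin_cases j
      · simpa using k3
      · simpa using k2
      · simpa using k1
    have hall : ∀ A, a A = 0 := by
      intro A
      have hA : A ∈ Submodule.span Ω (Set.range A₀ ∪ ⋃ i, Set.range (μ i)) := by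
        rw [hco]
        trivial
      have hle : Submodule.span Ω (Set.range A₀ ∪ ⋃ i, Set.range (μ i)) ≤ LinearMap.ker a := by
        rw [Submodule.span_le]
        rintro A (⟨i, rfl⟩ | hA)
        · exact hz0 i
        · obtain ⟨i, l, rfl⟩ := Set.mem_iUnion.1 hA
          exact hz i l
      exact hle hA
    have htop : (⊤ : Submodule Ω Q) ≤ ⊥ := by
      rw [← hs, Submodule.span_le]
      rintro _ ⟨A, m, rfl⟩
      rw [hφ, hall, map_zero]
      simp
    have h6 : finrank Ω Q = 0 := by
      rw [← finrank_top, le_bot_iff.1 htop, finrank_bot]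
    omega

end sym

section chart

variable {Ω : Type} [Field Ω] {n : ℕ}

/-- a vector which vanishes at the indices in `T` is a multiple of a vector with a coordinate 1 -/
theorem nz (T : Finset (Fin (n + 1))) (hT : T.card < n + 1) (w : Fin (n + 1) → Ω)
    (hw : ∀ t ∈ T, w t = 0) :
    ∃ s, s ∉ T ∧ ∃ w' : Fin (n + 1) → Ω, w' s = 1 ∧ (∀ t ∈ T, w' t = 0) ∧ ∃ c : Ω, w = c • w' := by
  classical
  by_cases h : w = 0
  · obtain ⟨s, hs⟩ : ∃ s, s ∉ T := by
      by_contra hc
      push Not at hc
      have h1 : T = Finset.univ := Finset.eq_univ_of_forall hc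
      rw [h1, Finset.card_univ, Fintype.card_fin] at hT
      omega
    refine ⟨s, hs, Pi.single s 1, by simp, fun t ht => ?_, 0, by rw [h, zero_smul]⟩
    rw [Pi.single_eq_of_ne]
    rintro rfl
    exact hs ht
  · obtain ⟨s, hs⟩ := Function.ne_iff.1 h
    rw [Pi.zero_apply] at hs
    refine ⟨s, fun h1 => hs (hw s h1), (w s)⁻¹ • w, ?_, fun t ht => ?_, w s, ?_⟩
    · rw [Pi.smul_apply, smul_eq_mul, inv_mul_cancel₀ hs]
    · rw [Pi.smul_apply, hw t ht, smul_zero]
    · rw [smul_smul, mul_inv_cancel₀ hs, one_smul]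

/-- a chart of a plane which contains three given vectors -/
theorem chart (hn : 2 ≤ n) {x : Fin (n + 1) → Ω} {j0 : Fin (n + 1)} (hx : x j0 = 1)
    (u v : Fin (n + 1) → Ω) :
    ∃ (t : Fin (2 + 1) → Fin (n + 1)) (P : Fin (2 + 1) → Fin (n + 1) → Ω), Cht x j0 t P ∧
      (∃ a : Fin (2 + 1) → Ω, ∀ f, u f = ∑ i, a i * P i f) ∧
      ∃ a : Fin (2 + 1) → Ω, ∀ f, v f = ∑ i, a i * P i f := by
  classical
  obtain ⟨t1, ht1, w1, hw1, hw1', c1, hc1⟩ := nz {j0} (by simp; omega) (u - u j0 • x) (by
    intro t ht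
    rw [Finset.mem_singleton.1 ht, Pi.sub_apply, Pi.smul_apply, hx, smul_eq_mul, mul_one, sub_self])
  have hw10 : w1 j0 = 0 := hw1' j0 (Finset.mem_singleton_self _)
  have ht1' : t1 ≠ j0 := fun h => ht1 (by rw [h]; exact Finset.mem_singleton_self _)
  obtain ⟨t2, ht2, w2, hw2, hw2', c2, hc2⟩ := nz {j0, t1}
    (lt_of_le_of_lt Finset.card_le_two (by omega))
    (v - v j0 • x - (v t1 - v j0 * x t1) • w1) (by
    intro t ht
    rcases Finset.mem_insert.1 ht with rfl | ht
    · simp [hx, hw10]
    · rw [Finset.mem_singleton.1 ht]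
      simp [hw1])
  have hw20 : w2 j0 = 0 := hw2' j0 (by simp)
  have hw21 : w2 t1 = 0 := hw2' t1 (by simp)
  have ht20 : t2 ≠ j0 := fun h => ht2 (by rw [h]; simp)
  have ht21 : t2 ≠ t1 := fun h => ht2 (by rw [h]; simp)
  set P1 : Fin (n + 1) → Ω := w1 - w1 t2 • w2 with hP1
  have p10 : P1 j0 = 0 := by simp [hP1, hw10, hw20]
  have p11 : P1 t1 = 1 := by simp [hP1, hw1, hw21]
  have p12 : P1 t2 = 0 := by simp [hP1, hw2]
  set P0 : Fin (n + 1) → Ω := x - x t1 • P1 - x t2 • w2 with hP0
  have p00 : P0 j0 = 1 := by simp [hP0, hx, p10, hw20]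
  have p01 : P0 t1 = 0 := by simp [hP0, p11, hw21]
  have p02 : P0 t2 = 0 := by simp [hP0, p12, hw2]
  have hxP : ∀ f, x f = P0 f * x j0 + P1 f * x t1 + w2 f * x t2 := by
    intro f
    rw [hx]
    simp only [hP0, Pi.sub_apply, Pi.smul_apply, smul_eq_mul]
    ring
  have hu : ∀ f, u f = u j0 * x f + c1 * w1 f := by
    intro f
    have := congrFun hc1 f
    simp only [Pi.sub_apply, Pi.smul_apply, smul_eq_mul] at this
    linear_combination this
  have hv : ∀ f, v f = v j0 * x f + (v t1 - v j0 * x t1) * w1 f + c2 * w2 f := by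
    intro f
    have := congrFun hc2 f
    simp only [Pi.sub_apply, Pi.smul_apply, smul_eq_mul] at this
    linear_combination this
  have hw1P : ∀ f, w1 f = P1 f + w1 t2 * w2 f := by
    intro f
    simp only [hP1, Pi.sub_apply, Pi.smul_apply, smul_eq_mul]
    ring
  refine ⟨![j0, t1, t2], ![P0, P1, w2], ⟨rfl, ?_, ?_⟩, ⟨![u j0 * x j0, u j0 * x t1 + c1,
    u j0 * x t2 + c1 * w1 t2], ?_⟩, ⟨![v j0 * x j0, v j0 * x t1 + (v t1 - v j0 * x t1),
    v j0 * x t2 + (v t1 - v j0 * x t1) * w1 t2 + c2], ?_⟩⟩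
  · intro i j
    fin_cases i <;> fin_cases j <;>
      simp [p00, p01, p02, p10, p11, p12, hw20, hw21, hw2]
  · intro f
    rw [Fin.sum_univ_three]
    exact hxP f
  · intro f
    rw [Fin.sum_univ_three]
    simp only [Matrix.cons_val_zero, Matrix.cons_val_one, Matrix.cons_val]
    rw [hu f, hw1P f]
    linear_combination u j0 * hxP f
  · intro f
    rw [Fin.sum_univ_three]
    simp only [Matrix.cons_val_zero, Matrix.cons_val_one, Matrix.cons_val]
    rw [hv f, hw1P f]
    linear_combination v j0 * hxP f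

end chart

section tuples

variable {Ω : Type} [Field Ω] {n c : ℕ} {d : Fin c → ℕ}

/-- tuples of forms of degrees `e m` -/
def tup (Ω : Type) [Field Ω] (n : ℕ) {c : ℕ} (e : Fin c → ℕ) : Submodule Ω (TP Ω n c) where
  carrier := {A | ∀ m, (A m).IsHomogeneous (e m)}
  add_mem' := fun hA hB m => (hA m).add (hB m)
  zero_mem' := fun m => isHomogeneous_zero _ _ _
  smul_mem' := fun a A hA m => by
    change (a • A m).IsHomogeneous (e m)
    rw [smul_eq_C_mul]
    simpa using (isHomogeneous_C (Fin (n + 1)) a).mul (hA m)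

theorem adm_of_tup {A : TP Ω n c} (hd : ∀ m, 2 ≤ d m)
    (hA : ∀ m, (A m).IsHomogeneous (d m - 1)) : Adm d A := by
  intro m I hI
  have h1 := (hA m) hI
  have h2 := hd m
  have h3 : I.degree = d m - 1 := by
    rw [Finsupp.degree_eq_weight_one]
    exact h1
  omega

theorem tup_of_adm {A : TP Ω n c} (hA : Adm d A) :
    ∀ m, (A m).IsHomogeneous (d m - 1) := by
  intro m I hI
  have h1 := hA m I hI
  have h2 : I.degree = d m - 1 := by omega
  rw [Finsupp.degree_eq_weight_one] at h2
  exact h2

variable (D : DSys Ω n c d) (x : Fin (n + 1) → Ω)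

/-- the product with a linear form -/
noncomputable def ml (A : TP Ω n c) (l : Fin (n + 1) → Ω) : TP Ω n c :=
  fun m => A m * lin Ω n l

theorem ml_add (A A' : TP Ω n c) (l : Fin (n + 1) → Ω) : ml (A + A') l = ml A l + ml A' l := by
  funext m
  exact add_mul _ _ _

theorem ml_smul (a : Ω) (A : TP Ω n c) (l : Fin (n + 1) → Ω) : ml (a • A) l = a • ml A l := by
  funext m
  change (a • A m) * lin Ω n l = a • (A m * lin Ω n l)
  rw [smul_mul_assoc]

theorem ml_add' (A : TP Ω n c) (l l' : Fin (n + 1) → Ω) : ml A (l + l') = ml A l + ml A l' := by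
  funext m
  change A m * lin Ω n (l + l') = A m * lin Ω n l + A m * lin Ω n l'
  rw [map_add, mul_add]

theorem ml_smul' (a : Ω) (A : TP Ω n c) (l : Fin (n + 1) → Ω) : ml A (a • l) = a • ml A l := by
  funext m
  change A m * lin Ω n (a • l) = a • (A m * lin Ω n l)
  rw [map_smul, mul_smul_comm]

variable (d) in
/-- the space spanned by the `V(A l)` -/
def QT : Submodule Ω (Fin (n + 1) → Ω) :=
  Submodule.span Ω {q | ∃ (A : TP Ω n c) (l : Fin (n + 1) → Ω),
    (∀ m, (A m).IsHomogeneous (d m - 1)) ∧ l ∈ Mx x ∧ q = VT D x (ml A l)}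

variable (d) in
/-- the bilinear map `(A, l) ↦ V(A l)` -/
noncomputable def phi : tup Ω n (fun m => d m - 1) →ₗ[Ω] Mx x →ₗ[Ω] QT d D x :=
  LinearMap.mk₂ Ω (fun A l => ⟨VT D x (ml (A : TP Ω n c) (l : Fin (n + 1) → Ω)),
      Submodule.subset_span ⟨A, l, A.2, l.2, rfl⟩⟩)
    (fun A A' l => Subtype.ext (by
      change VT D x (ml ((A : TP Ω n c) + A') _) = VT D x _ + VT D x _
      rw [ml_add, map_add]))
    (fun a A l => Subtype.ext (by
      change VT D x (ml (a • (A : TP Ω n c)) _) = a • VT D x _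
      rw [ml_smul, map_smul]))
    (fun A l l' => Subtype.ext (by
      change VT D x (ml _ ((l : Fin (n + 1) → Ω) + l')) = VT D x _ + VT D x _
      rw [ml_add', map_add]))
    (fun a A l => Subtype.ext (by
      change VT D x (ml _ (a • (l : Fin (n + 1) → Ω))) = a • VT D x _
      rw [ml_smul', map_smul]))

theorem phi_coe (A : tup Ω n (fun m => d m - 1)) (l : Mx x) :
    (phi d D x A l : Fin (n + 1) → Ω) = VT D x (ml (A : TP Ω n c) l) := rfl

variable {D x} {j0 : Fin (n + 1)}

theorem V0 (hx : x j0 = 1) (G : TP Ω n c) : VT D x G j0 = 0 := by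
  rw [VT_apply, Finset.sum_apply]
  refine Finset.sum_eq_zero fun m _ => ?_
  rw [DSys.V_apply]
  refine Finset.sum_eq_zero fun I _ => ?_
  rw [hx, Derivation.map_one_eq_zero, mul_zero]

theorem QT_j0 (hx : x j0 = 1) {v : Fin (n + 1) → Ω} (hv : v ∈ QT d D x) : v j0 = 0 := by
  have h : QT d D x ≤ LinearMap.ker (LinearMap.proj j0 : (Fin (n + 1) → Ω) →ₗ[Ω] Ω) := by
    unfold QT
    rw [Submodule.span_le]
    rintro _ ⟨A, l, -, -, rfl⟩
    exact V0 hx _
  exact h hv

/-- `V(l ∂_p F) = 0` -/
theorem V_dF (hx : x j0 = 1) (hw : ∀ p q, WT D x p q ∈ Submodule.span Ω {x})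
    (p : Fin (n + 1)) {l : Fin (n + 1) → Ω} (hl : l ∈ Mx x) :
    VT D x (ml (fun m => pderiv p (D.F m)) l) = 0 := by
  have h1 : ∀ q, VT D x (fun m => X q * pderiv p (D.F m)) =
      x q • ((if p = j0 then (1 : Ω) else 0) • x - Pi.single p 1) := by
    intro q
    obtain ⟨a, ha⟩ := Submodule.mem_span_singleton.1 (hw p q)
    unfold WT at ha
    have h2 := congrFun ha j0
    rw [Pi.smul_apply, hx, Pi.add_apply, V0 hx, add_zero, Pi.smul_apply, smul_eq_mul, smul_eq_mul,
      mul_one, Pi.single_apply] at h2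
    have h3 : VT D x (fun m => X q * pderiv p (D.F m)) = a • x - x q • Pi.single p 1 := by
      rw [ha]
      abel
    rw [h3, h2, smul_sub, smul_smul]
    congr 3
    by_cases hp : p = j0
    · rw [if_pos hp, if_pos hp.symm]
    · rw [if_neg hp, if_neg (Ne.symm hp)]
  have h2 : ml (fun m => pderiv p (D.F m)) l = ∑ q, l q • fun m => X q * pderiv p (D.F m) := by
    funext m
    rw [Finset.sum_apply]
    change pderiv p (D.F m) * lin Ω n l = _
    rw [lin_apply, Finset.mul_sum]
    refine Finset.sum_congr rfl fun q _ => ?_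
    change _ = l q • (X q * pderiv p (D.F m))
    rw [mul_smul_comm, mul_comm]
  rw [h2, map_sum]
  have h3 : ∀ q, VT D x (l q • fun m => X q * pderiv p (D.F m)) =
      (l q * x q) • ((if p = j0 then (1 : Ω) else 0) • x - Pi.single p 1) := by
    intro q
    rw [map_smul, h1, smul_smul]
  rw [Finset.sum_congr rfl fun q _ => h3 q, ← Finset.sum_smul, mem_Mx.1 hl, zero_smul]

/-- the derivatives of `F` at `x` span -/
theorem exS (h0 : ∀ m, eval x (D.F m) = 0) (hx : x j0 = 1) (a : Fin c → Ω) :
    ∃ s : Fin (n + 1) → Ω, ∀ m, ∑ p, s p * eval x (pderiv p (D.F m)) = a m := by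
  classical
  refine ⟨fun p => -∑ m, a m * D.V x m (X j0 ^ d m) p, fun m => ?_⟩
  have h1 : ∀ m', ∑ p, eval x (pderiv p (D.F m)) * D.V x m' (X j0 ^ d m') p =
      if m' = m then -1 else 0 := by
    intro m'
    have h := Gen.H12.reln Ω n c d D x h0 m' m (X j0 ^ d m') (by
      simpa using (isHomogeneous_X Ω j0).pow (d m'))
    rw [h, map_pow, eval_X, hx, one_pow]
  have h2 : ∀ p, (-∑ m', a m' * D.V x m' (X j0 ^ d m') p) * eval x (pderiv p (D.F m)) =
      -∑ m', a m' * (eval x (pderiv p (D.F m)) * D.V x m' (X j0 ^ d m') p) := by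
    intro p
    rw [neg_mul, Finset.sum_mul]
    congr 1
    exact Finset.sum_congr rfl fun m' _ => by ring
  rw [Finset.sum_congr rfl fun p _ => h2 p, Finset.sum_neg_distrib, Finset.sum_comm]
  have h3 : ∀ m', ∑ p, a m' * (eval x (pderiv p (D.F m)) * D.V x m' (X j0 ^ d m') p) =
      if m' = m then -a m' else 0 := by
    intro m'
    rw [← Finset.mul_sum, h1]
    split_ifs <;> simp
  rw [Finset.sum_congr rfl fun m' _ => h3 m', Finset.sum_ite_eq' Finset.univ m]
  simp

variable (x) in
/-- multiplication of a tuple of forms of degrees `d m - 2` by linear forms -/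
noncomputable def mu (hd : ∀ m, 2 ≤ d m) (B : tup Ω n (fun m => d m - 2)) :
    Mx x →ₗ[Ω] tup Ω n (fun m => d m - 1) where
  toFun l := ⟨ml (B : TP Ω n c) l, fun m => by
    have h1 : ((B : TP Ω n c) m).IsHomogeneous (d m - 2) := B.2 m
    have h2 := h1.mul (lin_hom (l : Fin (n + 1) → Ω))
    have h3 : d m - 2 + 1 = d m - 1 := by
      have := hd m
      omega
    rw [h3] at h2
    exact h2⟩
  map_add' l l' := Subtype.ext (ml_add' _ _ _)
  map_smul' a l := Subtype.ext (ml_smul' _ _ _)

variable (D) in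
/-- the tuple of the partial derivatives -/
noncomputable def dF (p : Fin (n + 1)) : tup Ω n (fun m => d m - 1) :=
  ⟨fun m => pderiv p (D.F m), fun m => (D.hom m).pderiv⟩

theorem span_top (hd : ∀ m, 2 ≤ d m) (h0 : ∀ m, eval x (D.F m) = 0) (hx : x j0 = 1) :
    Submodule.span Ω (Set.range (dF D) ∪ ⋃ B, Set.range (mu x hd B)) = ⊤ := by
  set Z := Submodule.span Ω (Set.range (dF D) ∪ ⋃ B, Set.range (mu x hd B)) with hZ
  -- tuples zero at `x`
  have h1 : ∀ A : TP Ω n c, (∀ m, (A m).IsHomogeneous (d m - 1)) → (∀ m, eval x (A m) = 0) →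
      A ∈ Z.map (tup Ω n (fun m => d m - 1)).subtype := by
    intro A hA hA0
    rw [Lines.H19.sum_one1 A]
    refine Submodule.sum_mem _ fun m _ => ?_
    have h2 : (A m).IsHomogeneous ((d m - 2) + 1) := by
      have h3 := hd m
      have h4 : d m - 2 + 1 = d m - 1 := by omega
      rw [h4]
      exact hA m
    have h3 := T2.H79.mem_of_eval hx h2 (hA0 m)
    generalize A m = P at h3
    induction h3 using Submodule.span_induction with
    | mem P hP =>
      obtain ⟨B, l, hB, rfl⟩ := hP
      have hB' : Lines.one1 m B ∈ tup Ω n (fun m => d m - 2) := by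
        intro m'
        unfold Lines.one1
        split_ifs with h
        · subst h
          exact hB
        · exact isHomogeneous_zero _ _ _
      refine ⟨mu x hd ⟨_, hB'⟩ l, Submodule.subset_span (Or.inr (Set.mem_iUnion.2
        ⟨⟨_, hB'⟩, l, rfl⟩)), ?_⟩
      funext m'
      change Lines.one1 m B m' * lin Ω n (l : Fin (n + 1) → Ω) = Lines.one1 m _ m'
      unfold Lines.one1
      split_ifs
      · rfl
      · rw [zero_mul]
    | zero =>
      have : (Lines.one1 m 0 : TP Ω n c) = 0 := by
        funext m'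
        unfold Lines.one1
        split_ifs <;> rfl
      rw [this]
      exact zero_mem _
    | add P Q _ _ hP hQ =>
      have : (Lines.one1 m (P + Q) : TP Ω n c) = Lines.one1 m P + Lines.one1 m Q := by
        funext m'
        rw [Pi.add_apply]
        unfold Lines.one1
        split_ifs
        · rfl
        · rw [add_zero]
      rw [this]
      exact Submodule.add_mem _ hP hQ
    | smul a P _ hP =>
      have : (Lines.one1 m (a • P) : TP Ω n c) = a • Lines.one1 m P := by
        funext m'
        rw [Pi.smul_apply]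
        unfold Lines.one1
        split_ifs
        · rfl
        · rw [smul_zero]
      rw [this]
      exact Submodule.smul_mem _ _ hP
  rw [eq_top_iff]
  rintro A -
  obtain ⟨s, hs⟩ := exS h0 hx fun m => eval x ((A : TP Ω n c) m)
  have h2 := h1 ((A - ∑ p, s p • dF D p : tup Ω n (fun m => d m - 1)) : TP Ω n c)
    (A - ∑ p, s p • dF D p).2 (fun m => by
    have e1 : ((A - ∑ p, s p • dF D p : tup Ω n (fun m => d m - 1)) : TP Ω n c) m =
        (A : TP Ω n c) m - ∑ p, C (s p) * pderiv p (D.F m) := by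
      rw [Submodule.coe_sub, Submodule.coe_sum, Pi.sub_apply, Finset.sum_apply]
      congr 1
      refine Finset.sum_congr rfl fun p _ => ?_
      rw [Submodule.coe_smul, Pi.smul_apply, smul_eq_C_mul]
      rfl
    rw [e1, map_sub, map_sum, ← hs m, sub_eq_zero]
    exact Finset.sum_congr rfl fun p _ => by rw [map_mul, eval_C])
  obtain ⟨A', hA', hA''⟩ := h2
  have h3 : A' = A - ∑ p, s p • dF D p := Subtype.ext hA''
  have h4 : A = A' + ∑ p, s p • dF D p := by
    rw [h3]
    abel
  rw [h4]
  refine Submodule.add_mem _ hA' (Submodule.sum_mem _ fun p _ => Submodule.smul_mem _ _ ?_)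
  exact Submodule.subset_span (Or.inl ⟨p, rfl⟩)

variable (d) in
/-- the integral tuples -/
def inT (Ω : Type) [Field Ω] (n : ℕ) : AddSubgroup (tup Ω n (fun m => d m - 1)) where
  carrier := {A | (A : TP Ω n c) ∈ T2.H79.intT d Ω n}
  add_mem' := fun hA hB => (T2.H79.intT d Ω n).add_mem hA hB
  zero_mem' := (T2.H79.intT d Ω n).zero_mem
  neg_mem' := fun hA => (T2.H79.intT d Ω n).neg_mem hA

theorem mem_inT {A : tup Ω n (fun m => d m - 1)} :
    A ∈ inT d Ω n ↔ (A : TP Ω n c) ∈ T2.H79.intT d Ω n := Iff.rfl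

theorem span_inT : Submodule.span Ω (inT d Ω n : Set (tup Ω n (fun m => d m - 1))) = ⊤ := by
  rw [eq_top_iff]
  rintro ⟨A, hA⟩ -
  have hA' : ∀ m, (A m).IsHomogeneous (d m - 1) := hA
  obtain ⟨A', hA'', h⟩ := T2.H79.tuple_linear (d := d) (fun A => A ∈
    (Submodule.span Ω (inT d Ω n : Set (tup Ω n (fun m => d m - 1)))).map
      (tup Ω n (fun m => d m - 1)).subtype) (zero_mem _) (fun A B hA hB => add_mem hA hB)
    (fun a A hA => Submodule.smul_mem _ a hA)
    (fun A hA => ⟨⟨A, fun m => (hA m).1⟩, Submodule.subset_span (mem_inT.2 hA), rfl⟩) hA'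
  have h1 : A' = ⟨A, hA⟩ := Subtype.ext h
  rw [← h1]
  exact hA''

/-- the dimension of the space of the `V(A l)` -/
theorem finrank_QT (hK : KerStatement) (hn : n = c + 3) (hd : ∀ m, 2 ≤ d m) (hx : x j0 = 1)
    (h0 : ∀ m, eval x (D.F m) = 0) (hw : ∀ p q, WT D x p q ∈ Submodule.span Ω {x}) :
    finrank Ω (QT d D x) = 3 := by
  obtain ⟨h1, h2, h3⟩ := hK Ω n c d D x j0 hx h0
  have h4 : KerF D x = Submodule.span Ω {x} ⊔ QT d D x := by
    apply le_antisymm
    · rw [← h3, Submodule.span_le]
      rintro _ ((rfl | ⟨p, q, rfl⟩) | ⟨A, i, hA, rfl⟩)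
      · exact Submodule.mem_sup_left (Submodule.mem_span_singleton_self _)
      · exact Submodule.mem_sup_left (hw p q)
      · refine Submodule.mem_sup_right (Submodule.subset_span ?_)
        refine ⟨A, Pi.single i 1 - x i • Pi.single j0 1, tup_of_adm hA, ?_, ?_⟩
        · rw [mem_Mx]
          have e1 : ∀ j, (Pi.single i 1 - x i • Pi.single j0 1 : Fin (n + 1) → Ω) j * x j =
              (if j = i then x j else 0) - x i * (if j = j0 then x j else 0) := by
            intro j
            simp only [Pi.sub_apply, Pi.smul_apply, Pi.single_apply, smul_eq_mul]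
            split_ifs <;> ring
          rw [Finset.sum_congr rfl fun j _ => e1 j, Finset.sum_sub_distrib, ← Finset.mul_sum,
            Finset.sum_ite_eq' Finset.univ i, Finset.sum_ite_eq' Finset.univ j0]
          simp [hx]
        · congr 1
          funext m
          change A m * lf x j0 i = A m * lin Ω n (Pi.single i 1 - x i • Pi.single j0 1)
          rw [map_sub, map_smul, lin_single, lin_single, one_smul, one_smul]
          unfold lf
          rw [smul_eq_C_mul]
    · rw [sup_le_iff, Submodule.span_singleton_le_iff_mem]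
      refine ⟨?_, ?_⟩
      · rw [← h3]
        exact Submodule.subset_span (Or.inl (Or.inl rfl))
      · unfold QT
        rw [Submodule.span_le]
        rintro _ ⟨A, l, hA, hl, rfl⟩
        refine h2 _ (fun m => ?_) (fun m => ?_)
        · have h5 := (hA m).mul (lin_hom (l : Fin (n + 1) → Ω))
          have h6 : d m - 1 + 1 = d m := by
            have := hd m
            omega
          rw [h6] at h5
          exact h5
        · change eval x (A m * lin Ω n l) = 0
          rw [map_mul, lin_apply, map_sum]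
          have h3 : ∑ i, eval x (l i • X i) = 0 := by
            rw [← mem_Mx.1 hl]
            refine Finset.sum_congr rfl fun i _ => ?_
            rw [smul_eval, eval_X]
          rw [h3, mul_zero]
  have h5 : Submodule.span Ω {x} ⊓ QT d D x = ⊥ := by
    rw [eq_bot_iff]
    rintro v ⟨hv1, hv2⟩
    obtain ⟨a, rfl⟩ := Submodule.mem_span_singleton.1 hv1
    have h6 := QT_j0 hx hv2
    rw [Pi.smul_apply, hx, smul_eq_mul, mul_one] at h6
    rw [h6, zero_smul]
    exact zero_mem _
  have h6 := Submodule.finrank_sup_add_finrank_inf_eq (Submodule.span Ω {x}) (QT d D x)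
  have hx0 : x ≠ 0 := by
    rintro rfl
    exact zero_ne_one hx
  rw [h5, finrank_bot, ← h4, finrank_span_singleton hx0] at h6
  omega

end tuples

/-- row ATK -/
theorem atk : AtkStatement := by
  intro hK Ω _ _ k n c d D x j0 hn hd hx h0 hb hr
  have hw : ∀ p q, WT D x p q ∈ Submodule.span Ω {x} := fun p q => hb _ (Or.inl ⟨p, q, rfl⟩)
  have hrank : ∀ A ∈ inT d Ω n, ∀ l : Fin 3 → Mx x,
      ¬ LinearIndependent Ω fun i => phi d D x A (l i) := by
    intro A hA l hli0
    have hli : LinearIndependent Ω fun i => VT D x (ml (A : TP Ω n c) (l i)) := by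
      have := hli0.map' (QT d D x).subtype (Submodule.ker_subtype _)
      exact this
    have hAk : Tk k d (A : TP Ω n c) := by
      refine ⟨adm_of_tup hd A.2, fun m I => ?_⟩
      obtain ⟨z, hz⟩ := ((mem_inT.1 hA) m).2 I
      rw [hz]
      exact intCast_mem k z
    have h1 := hr A hAk
    have hmem : ∀ i, VT D x (ml (A : TP Ω n c) (l i)) ∈ EA D x j0 k (A : TP Ω n c) := by
      intro i
      have e1 : ml (A : TP Ω n c) (l i) = ∑ q, (l i : Fin (n + 1) → Ω) q •
          mulT (A : TP Ω n c) (lf x j0 q) := by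
        funext m
        change (A : TP Ω n c) m * lin Ω n (l i) = _
        rw [T2.H79.lin_eq_lfT j0 (l i).2, Finset.sum_apply, Finset.mul_sum]
        refine Finset.sum_congr rfl fun q _ => ?_
        rw [Pi.smul_apply, mul_smul_comm]
        rfl
      rw [e1, map_sum]
      refine Submodule.sum_mem _ fun q _ => ?_
      rw [map_smul]
      exact Submodule.smul_mem _ _ (Submodule.subset_span (Or.inr ⟨q, rfl⟩))
    have hx' : x ∈ EA D x j0 k (A : TP Ω n c) :=
      Submodule.subset_span (Or.inl (Or.inl rfl))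
    have hz : Submodule.span Ω (Set.range fun i => VT D x (ml (A : TP Ω n c) (l i))) ≤
        LinearMap.ker (LinearMap.proj j0 : (Fin (n + 1) → Ω) →ₗ[Ω] Ω) := by
      rw [Submodule.span_le]
      rintro _ ⟨i, rfl⟩
      exact V0 hx _
    have hli4 : LinearIndependent Ω
        (Fin.cons x (fun i => VT D x (ml (A : TP Ω n c) (l i))) :
          Fin 4 → Fin (n + 1) → Ω) := by
      rw [linearIndependent_finCons]
      refine ⟨hli, fun hc => ?_⟩
      have h3 : x j0 = 0 := hz hc
      rw [hx] at h3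
      exact one_ne_zero h3
    have h4 := finrank_span_eq_card hli4
    have h5 : Submodule.span Ω (Set.range
        (Fin.cons x (fun i => VT D x (ml (A : TP Ω n c) (l i))) :
          Fin 4 → Fin (n + 1) → Ω)) ≤ EA D x j0 k (A : TP Ω n c) := by
      rw [Submodule.span_le]
      rintro _ ⟨i, rfl⟩
      refine Fin.cases ?_ (fun i => ?_) i
      · exact hx'
      · exact hmem i
    have h6 := Submodule.finrank_mono h5
    rw [h4, Fintype.card_fin] at h6
    omega
  have hs : Submodule.span Ω {q | ∃ A l, phi d D x A l = q} = ⊤ := by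
    rw [eq_top_iff]
    have h1 : (QT d D x) ≤ (Submodule.span Ω {q | ∃ A l, phi d D x A l = q}).map
        (QT d D x).subtype := by
      conv_lhs => unfold QT
      rw [Submodule.span_le]
      rintro q ⟨A, l, hA, hl, rfl⟩
      exact ⟨phi d D x ⟨A, hA⟩ ⟨l, hl⟩, Submodule.subset_span ⟨_, _, rfl⟩, rfl⟩
    rintro ⟨q, hq⟩ -
    obtain ⟨q', hq', e⟩ := h1 hq
    have : q' = ⟨q, hq⟩ := Subtype.ext e
    rw [← this]
    exact hq'
  rcases atkinson_sym2 two_ne_zero (finrank_QT hK hn hd hx h0 hw) (phi d D x) (inT d Ω n)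
    span_inT hrank hs (mu x hd) (fun B l l' => Subtype.ext (by
      rw [phi_coe, phi_coe]
      congr 1
      funext m
      change (B : TP Ω n c) m * lin Ω n l * lin Ω n l' =
        (B : TP Ω n c) m * lin Ω n l' * lin Ω n l
      rw [mul_right_comm])) (dF D) (fun p l => Subtype.ext (V_dF hx hw p l.2))
    (span_top hd h0 hx) with ⟨f, g, h⟩ | ⟨f, q, h⟩
  · right
    obtain ⟨u, hu⟩ := exists_vec f
    obtain ⟨v, hv⟩ := exists_vec g
    obtain ⟨t, P, hch, ⟨a, ha⟩, ⟨b, hb'⟩⟩ := chart (by omega) hx u v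
    refine ⟨t, P, hch, fun A hA f' => ?_⟩
    set l : Fin (n + 1) → Ω := Pi.single f' 1 - ∑ i, P i f' • Pi.single (t i) 1 with hl
    have hlin : lin Ω n l = lam t P f' := by
      rw [hl, map_sub, map_sum, lin_single, one_smul]
      unfold lam
      congr 1
      refine Finset.sum_congr rfl fun i _ => ?_
      rw [map_smul, lin_single, one_smul, smul_eq_C_mul]
    have hdot : ∀ w : Fin (n + 1) → Ω, ∑ j, l j * w j = w f' - ∑ i, P i f' * w (t i) := by
      intro w
      have e1 : ∀ j, l j * w j = (if j = f' then w j else 0) -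
          ∑ i, P i f' * (if j = t i then w j else 0) := by
        intro j
        rw [hl]
        simp only [Pi.sub_apply, Finset.sum_apply, Pi.smul_apply, Pi.single_apply, smul_eq_mul,
          sub_mul, Finset.sum_mul]
        congr 1
        · split_ifs <;> simp
        · refine Finset.sum_congr rfl fun i _ => ?_
          split_ifs <;> ring
      rw [Finset.sum_congr rfl fun j _ => e1 j, Finset.sum_sub_distrib,
        Finset.sum_ite_eq' Finset.univ f', Finset.sum_comm]
      simp only [Finset.mem_univ, if_true]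
      congr 1
      refine Finset.sum_congr rfl fun i _ => ?_
      rw [← Finset.mul_sum, Finset.sum_ite_eq' Finset.univ (t i)]
      simp
    have hP : ∀ j, ∑ f'', l f'' * P j f'' = 0 := by
      intro j
      rw [hdot]
      have e2 : ∑ i, P i f' * P j (t i) = P j f' := by
        rw [Finset.sum_eq_single j]
        · rw [hch.Pt, if_pos rfl, mul_one]
        · intro i _ hi
          rw [hch.Pt, if_neg (Ne.symm hi), mul_zero]
        · intro h
          exact absurd (Finset.mem_univ j) h
      rw [e2, sub_self]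
    have hspan : ∀ w : Fin (n + 1) → Ω, (∃ a : Fin (2 + 1) → Ω, ∀ f, w f = ∑ i, a i * P i f) →
        ∑ j, l j * w j = 0 := by
      rintro w ⟨a, ha⟩
      have e3 : ∀ j, l j * w j = ∑ i, a i * (l j * P i j) := by
        intro j
        rw [ha j, Finset.mul_sum]
        exact Finset.sum_congr rfl fun i _ => by ring
      rw [Finset.sum_congr rfl fun j _ => e3 j, Finset.sum_comm]
      refine Finset.sum_eq_zero fun i _ => ?_
      rw [← Finset.mul_sum, hP, mul_zero]
    have hxs : l ∈ Mx x := hspan x ⟨fun i => x (t i), fun f => by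
      rw [hch.xP f]
      exact Finset.sum_congr rfl fun i _ => mul_comm _ _⟩
    have h1 := h ⟨A, tup_of_adm hA⟩ ⟨l, hxs⟩ (by rw [hu]; exact hspan u ⟨a, ha⟩)
      (by rw [hv]; exact hspan v ⟨b, hb'⟩)
    have h2 := congrArg Subtype.val h1
    rw [phi_coe] at h2
    have h3 : mulT A (lam t P f') = ml A l := by
      funext m
      change A m * lam t P f' = A m * lin Ω n l
      rw [hlin]
    rw [h3]
    exact h2
  · left
    obtain ⟨u, hu'⟩ := exists_vec f
    obtain ⟨t1, ht1, y, hy, hy', c1, hc1⟩ := nz {j0} (by simp; omega) (u - u j0 • x) (by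
      intro t ht
      rw [Finset.mem_singleton.1 ht, Pi.sub_apply, Pi.smul_apply, hx, smul_eq_mul, mul_one,
        sub_self])
    have hy0 : y j0 = 0 := hy' j0 (Finset.mem_singleton_self _)
    have hu : ∀ f, u f = u j0 * x f + c1 * y f := by
      intro f
      have := congrFun hc1 f
      simp only [Pi.sub_apply, Pi.smul_apply, smul_eq_mul] at this
      linear_combination this
    have hxy : LinearIndependent Ω ![x, y] := by
      rw [LinearIndependent.pair_iff]
      intro s r hsr
      have e1 := congrFun hsr j0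
      simp only [Pi.add_apply, Pi.smul_apply, smul_eq_mul, hx, hy0, mul_one, mul_zero, add_zero,
        Pi.zero_apply] at e1
      have e2 := congrFun hsr t1
      simp only [Pi.add_apply, Pi.smul_apply, smul_eq_mul, hy, e1, zero_mul, zero_add, mul_one,
        Pi.zero_apply] at e2
      exact ⟨e1, e2⟩
    refine ⟨y, (q : Fin (n + 1) → Ω), hxy, fun G hG hG0 => ?_⟩
    refine T2.H79.V_onLineT D hxy (fun A hA l hl => ?_) hG hG0
    rw [T2.H79.phT_apply, T2.H79.VqT_eq_zero]
    have h1 : f l = 0 := by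
      rw [hu']
      have e1 : ∀ i, (l : Fin (n + 1) → Ω) i * u i = u j0 * ((l : Fin (n + 1) → Ω) i * x i) +
          c1 * ((l : Fin (n + 1) → Ω) i * y i) := by
        intro i
        rw [hu i]
        ring
      rw [Finset.sum_congr rfl fun i _ => e1 i, Finset.sum_add_distrib, ← Finset.mul_sum,
        ← Finset.mul_sum, mem_Mx.1 l.2, hl, mul_zero, mul_zero, add_zero]
    obtain ⟨a, ha⟩ := Submodule.mem_span_singleton.1 (h ⟨A, hA⟩ l h1)
    have h2 := congrArg Subtype.val ha
    rw [phi_coe] at h2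
    have h3 : Submodule.span Ω {(q : Fin (n + 1) → Ω)} ≤
        Submodule.span Ω {x, (q : Fin (n + 1) → Ω)} := Submodule.span_mono (by simp)
    exact h3 (Submodule.mem_span_singleton.2 ⟨a, h2⟩)

end Pool.Agent.T2C.H76
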